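import Mathlib
import Pool.Agent.helper61.DL.Defs4

set_option autoImplicit false

/-! # MP_6163c8_ag: the cones over the simplices of the triangulation cover the orthant -/

namespace Pool.Agent.helper8.DL

open Finset Filter Topology Pool.Agent.helper61.DL Pool.Agent.helper14.NS Pool.Agent.helper11.NSR

variable {n : ℕ} {ι : Type} [Fintype ι] [DecidableEq ι] {V : ι → Fin n →₀ ℕ} {om : ι → ℤ} {ε : ℚ}

lemma dt_zero_left (v : Fin n → ℚ) : dt (0 : Fin n → ℚ) v = 0 := by simp [dt]

lemma dt_neg' (k v : Fin n → ℚ) : dt (-k) v = -dt k v := by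
  simp [dt, Finset.sum_neg_distrib]

/-- number of active constraints -/
lemma act_card_le (hT : Tri V om ε) (k : Fin n → ℚ) (hk : ∀ i, 1 - ε * om i ≤ dt k (qv V i)) :
    (univ.filter fun i => dt k (qv V i) = 1 - ε * om i).card ≤ n := by
  have h1 := (hT.simple k hk).fintype_card_le_finrank
  rw [Module.finrank_fin_fun, Fintype.card_subtype] at h1
  exact h1

lemma dt_conv (hT : Tri V om ε) (d : Fin n → ℚ) (j : Fin n) :
    ∃ (i : ι) (m : ℚ), 0 < m ∧ dt d (qv V i) = d j * m := by
  obtain ⟨i, hi, hi'⟩ := hT.conv j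
  refine ⟨i, V i j, by exact_mod_cast hi, ?_⟩
  rw [dt_qv, Finset.sum_eq_single j]
  · intro j' _ hj'; rw [hi' j' hj']; simp
  · intro h; exact absurd (Finset.mem_univ _) h

lemma nonneg_of_dt (hT : Tri V om ε) (d : Fin n → ℚ) (hd : ∀ i, 0 ≤ dt d (qv V i)) (j : Fin n) :
    0 ≤ d j := by
  obtain ⟨i, m, hm, h⟩ := dt_conv hT d j
  have h1 := hd i
  rw [h] at h1
  exact nonneg_of_mul_nonneg_left h1 hm

/-- moving to a vertex -/
lemma exists_vertex (hT : Tri V om ε) :
    ∀ (m : ℕ) (k : Fin n → ℚ), (∀ i, 1 - ε * om i ≤ dt k (qv V i)) →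
      n ≤ m + (univ.filter fun i => dt k (qv V i) = 1 - ε * om i).card →
      (maxS V om ε).Nonempty := by
  intro m
  induction m with
  | zero =>
    intro k hk hc
    have h1 := act_card_le hT k hk
    refine ⟨univ.filter fun i => dt k (qv V i) = 1 - ε * om i, (mem_maxS _).2 ⟨by omega, k, hk, ?_⟩⟩
    intro i
    simp
  | succ m ih =>
    intro k hk hc
    set A := univ.filter fun i => dt k (qv V i) = 1 - ε * om i with hA
    by_cases hcn : n ≤ A.card
    · exact ih k hk (le_trans hcn (Nat.le_add_left _ _))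
    push Not at hcn
    -- a direction orthogonal to the active constraints
    have hex : ∃ d : Fin n → ℚ, d ≠ 0 ∧ ∀ i ∈ A, dt d (qv V i) = 0 := by
      let f : (Fin n → ℚ) →ₗ[ℚ] ({i // i ∈ A} → ℚ) :=
        { toFun := fun d i => dt d (qv V i.1)
          map_add' := fun d d' => by funext i; exact dt_add d d' _
          map_smul' := fun s d => by funext i; exact dt_smul s d _ }
      have hker : LinearMap.ker f ≠ ⊥ := by
        apply LinearMap.ker_ne_bot_of_finrank_lt
        rw [Module.finrank_fin_fun, Module.finrank_fintype_fun_eq_card, Fintype.card_coe]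
        exact hcn
      obtain ⟨d, hd, hd0⟩ := (Submodule.ne_bot_iff _).1 hker
      exact ⟨d, hd0, fun i hi => congrFun (LinearMap.mem_ker.1 hd) ⟨i, hi⟩⟩
    have hex2 : ∃ d : Fin n → ℚ, (∀ i ∈ A, dt d (qv V i) = 0) ∧ ∃ i, dt d (qv V i) < 0 := by
      obtain ⟨d, hd0, hd⟩ := hex
      by_cases h1 : ∃ i, dt d (qv V i) < 0
      · exact ⟨d, hd, h1⟩
      push Not at h1
      refine ⟨-d, fun i hi => by rw [dt_neg', hd i hi, neg_zero], ?_⟩
      by_contra hcon
      push Not at hcon
      apply hd0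
      funext j
      obtain ⟨i, m, hm, h⟩ := dt_conv hT d j
      have h2 := hcon i
      rw [dt_neg'] at h2
      have h3 : dt d (qv V i) = 0 := le_antisymm (by linarith) (h1 i)
      rw [h] at h3
      rcases mul_eq_zero.1 h3 with h4 | h4
      · exact h4
      · exact absurd h4 hm.ne'
    obtain ⟨d, hd, i₀, hi₀⟩ := hex2
    obtain ⟨j', hj'B, hmin⟩ := Finset.exists_min_image (univ.filter fun i => dt d (qv V i) < 0)
      (fun i => (dt k (qv V i) - (1 - ε * om i)) / (-dt d (qv V i))) ⟨i₀, by simp [hi₀]⟩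
    have hdj' : dt d (qv V j') < 0 := (Finset.mem_filter.1 hj'B).2
    set s : ℚ := (dt k (qv V j') - (1 - ε * om j')) / (-dt d (qv V j')) with hs
    have hs0 : 0 ≤ s := div_nonneg (by linarith [hk j']) (by linarith)
    have hslt : ∀ i, dt d (qv V i) < 0 →
        s * (-dt d (qv V i)) ≤ dt k (qv V i) - (1 - ε * om i) := by
      intro i hi
      have h1 : s ≤ (dt k (qv V i) - (1 - ε * om i)) / (-dt d (qv V i)) :=
        hmin i (Finset.mem_filter.2 ⟨Finset.mem_univ i, hi⟩)
      rwa [le_div_iff₀ (by linarith)] at h1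
    have hsj' : s * (-dt d (qv V j')) = dt k (qv V j') - (1 - ε * om j') := by
      rw [hs, div_mul_cancel₀]
      linarith
    have hval : ∀ i, dt (k + s • d) (qv V i) = dt k (qv V i) + s * dt d (qv V i) := by
      intro i
      rw [dt_add, dt_smul]
    refine ih (k + s • d) ?_ ?_
    · intro i
      rw [hval]
      by_cases hi : dt d (qv V i) < 0
      · have := hslt i hi
        linarith
      · have h1 := hk i
        have h2 := mul_nonneg hs0 (not_lt.1 hi)
        linarith
    · have hj'A : j' ∉ A := by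
        intro h
        rw [hd j' h] at hdj'
        exact lt_irrefl _ hdj'
      have hsub : insert j' A ⊆ univ.filter fun i => dt (k + s • d) (qv V i) = 1 - ε * om i := by
        intro i hi
        rw [Finset.mem_filter]
        refine ⟨Finset.mem_univ i, ?_⟩
        rw [hval]
        rcases Finset.mem_insert.1 hi with rfl | hi
        · linarith
        · rw [hd i hi, mul_zero, add_zero]
          exact (Finset.mem_filter.1 hi).2
      have h1 := Finset.card_le_card hsub
      rw [Finset.card_insert_of_notMem hj'A] at h1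
      omega

lemma maxS_nonempty (hT : Tri V om ε) (hV0 : ∀ i, V i ≠ 0) : (maxS V om ε).Nonempty := by
  -- a large constant vector
  obtain ⟨K, hK0, hK⟩ : ∃ K : ℚ, 0 ≤ K ∧ ∀ i, 1 - ε * om i ≤ K := by
    refine ⟨∑ i, |1 - ε * om i|, Finset.sum_nonneg fun i _ => abs_nonneg _, fun i => ?_⟩
    exact (le_abs_self _).trans (Finset.single_le_sum (f := fun i => |1 - ε * (om i : ℚ)|)
      (fun i _ => abs_nonneg _) (Finset.mem_univ i))
  refine exists_vertex hT n (fun _ => K) ?_ (by omega)
  intro i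
  refine (hK i).trans ?_
  rw [dt_qv, ← Finset.mul_sum]
  have h1 : (1 : ℚ) ≤ ∑ j, (V i j : ℚ) := by
    obtain ⟨j, hj⟩ := Finsupp.ne_iff.1 (hV0 i)
    have h2 : (1 : ℚ) ≤ V i j := by
      have : 1 ≤ V i j := Nat.one_le_iff_ne_zero.2 hj
      exact_mod_cast this
    exact h2.trans (Finset.single_le_sum (f := fun j => (V i j : ℚ)) (fun j _ => by positivity)
      (Finset.mem_univ j))
  nlinarith

/-- pairing of a rational with a real vector -/
def rdt (k : Fin n → ℚ) (x : Fin n → ℝ) : ℝ := ∑ j, (k j : ℝ) * x j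

lemma rdt_add (k k' : Fin n → ℚ) (x : Fin n → ℝ) : rdt (k + k') x = rdt k x + rdt k' x := by
  unfold rdt
  rw [← Finset.sum_add_distrib]
  exact Finset.sum_congr rfl fun i _ => by rw [Pi.add_apply]; push_cast; ring

lemma rdt_sub (k k' : Fin n → ℚ) (x : Fin n → ℝ) : rdt (k - k') x = rdt k x - rdt k' x := by
  unfold rdt
  rw [← Finset.sum_sub_distrib]
  exact Finset.sum_congr rfl fun i _ => by rw [Pi.sub_apply]; push_cast; ring

lemma rdt_smul (s : ℚ) (k : Fin n → ℚ) (x : Fin n → ℝ) : rdt (s • k) x = s * rdt k x := by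
  unfold rdt
  rw [Finset.mul_sum]
  exact Finset.sum_congr rfl fun i _ => by rw [Pi.smul_apply, smul_eq_mul]; push_cast; ring

/-- a vector is determined by its pairings with a basis -/
lemma eq_smul_of_dual {v : ι → Fin n → ℚ} {Δ : Finset ι} {j : ι} (_hj : j ∈ Δ)
    {c : ι → ((Fin n → ℚ) →ₗ[ℚ] ℚ)} (hc1 : ∀ w, w ∉ Δ → c w = 0)
    (hc3 : ∀ x, x = ∑ w, c w x • v w)
    (k : Fin n → ℚ) (hk : ∀ w ∈ Δ, w ≠ j → dt k (v w) = 0) :
    k = dt k (v j) • fun a => c j (Pi.single a 1) := by
  funext a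
  have h1 : k a = dt k (Pi.single a 1) := (dt_single k a).symm
  rw [h1]
  conv_lhs => rw [hc3 (Pi.single a 1)]
  have h2 : dt k (∑ w, c w (Pi.single a 1) • v w) = ∑ w, c w (Pi.single a 1) * dt k (v w) := by
    unfold dt
    simp only [Finset.sum_apply, Pi.smul_apply, smul_eq_mul, Finset.mul_sum]
    rw [Finset.sum_comm]
    exact Finset.sum_congr rfl fun v _ => Finset.sum_congr rfl fun i _ => by ring
  rw [h2, Finset.sum_eq_single j]
  · rw [Pi.smul_apply, smul_eq_mul, mul_comm]
  · intro w _ hw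
    by_cases hwΔ : w ∈ Δ
    · rw [hk w hwΔ hw, mul_zero]
    · rw [hc1 w hwΔ, LinearMap.zero_apply, zero_mul]
  · intro h; exact absurd (Finset.mem_univ _) h

/-- the cones over the simplices cover the orthant -/
theorem cover_cone {n : ℕ} (hn : 0 < n) {ι : Type} [Fintype ι] [DecidableEq ι]
    {V : ι → Fin n →₀ ℕ} {om : ι → ℤ} {ε : ℚ} (hT : Tri V om ε) (hV0 : ∀ i, V i ≠ 0)
    (x : Fin n → ℝ)
    (hx : ∀ j, 0 ≤ x j) : ∃ Δ ∈ maxS V om ε, ∃ c : ι → ℝ, (∀ v, 0 ≤ c v) ∧
      (∀ v, v ∉ Δ → c v = 0) ∧ ∀ j, x j = ∑ v, c v * (V v j : ℝ) := by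
  classical
  -- the vertices
  have hkk : ∀ Δ : Finset ι, ∃ k : Fin n → ℚ, Δ ∈ maxS V om ε →
      (∀ i, 1 - ε * om i ≤ dt k (qv V i)) ∧ ∀ i, i ∈ Δ ↔ dt k (qv V i) = 1 - ε * om i := by
    intro Δ
    by_cases h : Δ ∈ maxS V om ε
    · obtain ⟨k, hk⟩ := ((mem_maxS Δ).1 h).2
      exact ⟨k, fun _ => hk⟩
    · exact ⟨0, fun h' => absurd h' h⟩
  choose kk hkk using hkk
  obtain ⟨Δ, hΔ, hmin⟩ := Finset.exists_min_image (maxS V om ε) (fun Δ => rdt (kk Δ) x)
    (maxS_nonempty hT hV0)
  have hcard := maxS_card Δ hΔ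
  obtain ⟨c, hc1, hc2, hc3⟩ := exists_coord (qv V) Δ hcard (maxS_li hT Δ hΔ)
  refine ⟨Δ, hΔ, fun v => rdt (fun a => c v (Pi.single a 1)) x, ?_, ?_, ?_⟩
  · intro v
    by_cases hv : v ∈ Δ
    swap
    · show 0 ≤ rdt (fun a => c v (Pi.single a 1)) x
      have h0 : (fun a => c v (Pi.single a 1)) = (0 : Fin n → ℚ) := by
        funext a; rw [hc1 v hv]; rfl
      rw [h0]
      simp [rdt]
    show 0 ≤ rdt (fun a => c v (Pi.single a 1)) x
    by_contra hneg
    push Not at hneg
    set d : Fin n → ℚ := fun a => c v (Pi.single a 1) with hd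
    obtain ⟨j', k', d', hj', hk', hk'', -, -, -, -⟩ := Pool.Agent.helper11.NSR.fan
      (qv V) (fun i => 1 - ε * om i) hT.simple (Δ.erase v) (by
        intro e he he'
        have h1 : e = dt e (qv V v) • d := eq_smul_of_dual hv hc1 hc3 e
          (fun w hw hwv => he' w (Finset.mem_erase.2 ⟨hwv, hw⟩))
        have h2 := he v
        rcases h2.eq_or_lt with h2 | h2
        · rw [h1, ← h2, zero_smul]
        · exfalso
          have h3 : rdt e x = dt e (qv V v) * rdt d x := by
            conv_lhs => rw [h1]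
            rw [rdt_smul]
          have h4 : 0 ≤ rdt e x := Finset.sum_nonneg fun j _ =>
            mul_nonneg (by exact_mod_cast nonneg_of_dt hT e he j) (hx j)
          rw [h3] at h4
          have h5 : (0 : ℝ) < (dt e (qv V v) : ℝ) := by exact_mod_cast h2
          nlinarith) Δ (Finset.erase_subset _ _) hcard (kk Δ) (hkk Δ hΔ).1 (hkk Δ hΔ).2 v hv
        (Finset.notMem_erase _ _)
    set Δ' := insert j' (Δ.erase v) with hΔ'
    have hvj' : v ≠ j' := fun h => hj' (h ▸ hv)
    have hvΔ' : v ∉ Δ' := by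
      intro h
      rcases Finset.mem_insert.1 h with h | h
      · exact hvj' h
      · exact (Finset.notMem_erase _ _) h
    have hΔ'mem : Δ' ∈ maxS V om ε := by
      rw [mem_maxS]
      refine ⟨?_, k', hk', hk''⟩
      rw [Finset.card_insert_of_notMem (fun h => hj' (Finset.mem_of_mem_erase h)),
        Finset.card_erase_of_mem hv, hcard]
      have : 0 < Δ.card := Finset.card_pos.2 ⟨v, hv⟩
      omega
    have h1 := hmin Δ' hΔ'mem
    obtain ⟨h2, h3⟩ := hkk Δ' hΔ'mem
    have h4 : kk Δ' - kk Δ = dt (kk Δ' - kk Δ) (qv V v) • d := by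
      refine eq_smul_of_dual hv hc1 hc3 _ (fun w hw hwv => ?_)
      rw [dt_sub, (h3 w).1 (Finset.mem_insert_of_mem (Finset.mem_erase.2 ⟨hwv, hw⟩)),
        ((hkk Δ hΔ).2 w).1 hw, sub_self]
    have h5 : 0 < dt (kk Δ' - kk Δ) (qv V v) := by
      rw [dt_sub, ((hkk Δ hΔ).2 v).1 hv]
      have h6 : dt (kk Δ') (qv V v) ≠ 1 - ε * om v := fun h => hvΔ' ((h3 v).2 h)
      have h7 := lt_of_le_of_ne (h2 v) (Ne.symm h6)
      linarith
    have h8 : rdt (kk Δ') x - rdt (kk Δ) x = dt (kk Δ' - kk Δ) (qv V v) * rdt d x := by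
      rw [← rdt_sub]
      conv_lhs => rw [h4]
      rw [rdt_smul]
    have h9 : (0 : ℝ) < (dt (kk Δ' - kk Δ) (qv V v) : ℝ) := by exact_mod_cast h5
    nlinarith
  · intro v hv
    show rdt (fun a => c v (Pi.single a 1)) x = 0
    have h0 : (fun a => c v (Pi.single a 1)) = (0 : Fin n → ℚ) := by
      funext a; rw [hc1 v hv]; rfl
    rw [h0]
    simp [rdt]
  · intro j
    -- the identity for the basis vectors
    have h1 : ∀ a b : Fin n, (if a = b then (1 : ℚ) else 0) = ∑ v, c v (Pi.single a 1) * (V v b : ℚ) := by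
      intro a b
      have h2 := congrFun (hc3 (Pi.single a 1)) b
      rw [Finset.sum_apply] at h2
      rw [Pi.single_apply] at h2
      simp only [Pi.smul_apply, smul_eq_mul] at h2
      by_cases hab : a = b
      · rw [if_pos hab]
        rw [if_pos hab.symm] at h2
        exact h2
      · rw [if_neg hab]
        rw [if_neg (Ne.symm hab)] at h2
        exact h2
    have h2 : ∀ a b : Fin n, (if a = b then (1 : ℝ) else 0) =
        ∑ v, (c v (Pi.single a 1) : ℝ) * (V v b : ℝ) := by
      intro a b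
      have h3 := congrArg (fun q : ℚ => (q : ℝ)) (h1 a b)
      push_cast at h3
      rw [← h3]
      split_ifs <;> simp
    calc x j = ∑ a, x a * (if a = j then (1 : ℝ) else 0) := by simp
      _ = ∑ a, x a * ∑ v, (c v (Pi.single a 1) : ℝ) * (V v j : ℝ) := by
          exact Finset.sum_congr rfl fun a _ => by rw [h2 a j]
      _ = ∑ v, rdt (fun a => c v (Pi.single a 1)) x * (V v j : ℝ) := by
          unfold rdt
          simp only [Finset.mul_sum, Finset.sum_mul]
          rw [Finset.sum_comm]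
          exact Finset.sum_congr rfl fun v _ => Finset.sum_congr rfl fun a _ => by ring

end Pool.Agent.helper8.DL
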